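import Pool.Agent.helper15.XE.SpecS

/-!
# Project XE, row BLK: one block, three prime variables
-/

set_option autoImplicit false

namespace Pool.Agent.XE

open Finset ArithmeticFunction MeasureTheory
open Pool.Agent.EC (tri TL wt edg)
open Pool.Agent.CH (nit DPb Tset)
open Pool.Agent.SK (uu zN YN gj tr0 cel muz sml)
open GD (ks)

/-! ### Large `N` -/

theorem BLK_ev (s C : ℝ) (hs : 0 < s) : ∃ N₀ : ℕ, ∀ N : ℕ, N₀ ≤ N → C ≤ (N : ℝ) ^ s := by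
  have h : Filter.Tendsto (fun N : ℕ => (N : ℝ) ^ s) Filter.atTop Filter.atTop :=
    (tendsto_rpow_atTop hs).comp tendsto_natCast_atTop_atTop
  obtain ⟨N₀, h⟩ := Filter.eventually_atTop.1 (h.eventually_ge_atTop C)
  exact ⟨N₀, h⟩

theorem BLK_evl (C : ℝ) : ∃ N₀ : ℕ, ∀ N : ℕ, N₀ ≤ N → C ≤ Real.log N := by
  have h : Filter.Tendsto (fun N : ℕ => Real.log (N : ℝ)) Filter.atTop Filter.atTop :=
    Real.tendsto_log_atTop.comp tendsto_natCast_atTop_atTop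
  obtain ⟨N₀, h⟩ := Filter.eventually_atTop.1 (h.eventually_ge_atTop C)
  exact ⟨N₀, h⟩

/-! ### The factors -/

theorem BLK_kind {r : ℕ} (N z X : ℕ) (a b : Fin r → ℝ) (i : ℕ) (k : Fin (r + 2 * i)) :
    (∃ h : (k : ℕ) < r, uu N z X a b i k = cel ((N : ℝ) ^ a ⟨k, h⟩) ((N : ℝ) ^ b ⟨k, h⟩)) ∨
      (r ≤ (k : ℕ) ∧ (uu N z X a b i k = muz z ∨ uu N z X a b i k = sml X 0 ∨
        uu N z X a b i k = sml X 1)) := by
  unfold uu
  by_cases h : (k : ℕ) < r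
  · rw [dif_pos h]
    exact Or.inl ⟨h, rfl⟩
  · rw [dif_neg h]
    refine Or.inr ⟨by omega, ?_⟩
    split_ifs
    · exact Or.inl rfl
    · exact Or.inr (Or.inl rfl)
    · exact Or.inr (Or.inr rfl)

theorem BLK_spk {r : ℕ} (N z X : ℕ) (a b : Fin r → ℝ) (i : ℕ) (k : Fin (r + 2 * i)) :
    (∃ z', uu N z X a b i k = muz z') ∨ (∃ X', uu N z X a b i k = sml X' 0) ∨
      (∃ X', uu N z X a b i k = sml X' 1) ∨ ∃ a' b' : ℝ, uu N z X a b i k = cel a' b' := by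
  rcases BLK_kind N z X a b i k with ⟨h, e⟩ | ⟨-, e | e | e⟩
  · exact Or.inr (Or.inr (Or.inr ⟨_, _, e⟩))
  · exact Or.inl ⟨_, e⟩
  · exact Or.inr (Or.inl ⟨_, e⟩)
  · exact Or.inr (Or.inr (Or.inl ⟨_, e⟩))

theorem BLK_cel (a b : ℝ) (m : ℕ) : |cel a b m| ≤ 1 ∧ (cel a b m ≠ 0 → a ≤ (m : ℝ) ∧ (m : ℝ) < b) := by
  have e : cel a b m = if m.Prime ∧ a ≤ (m : ℝ) ∧ (m : ℝ) < b then 1 else 0 := rfl
  rw [e]
  split_ifs with h
  · exact ⟨by norm_num, fun _ => h.2⟩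
  · exact ⟨by norm_num, fun h => absurd rfl h⟩

theorem BLK_muz (z m : ℕ) : |muz z m| ≤ 1 ∧ (muz z m ≠ 0 → m ≤ z) := by
  have e : muz z m = if m ≤ z then ((moebius m : ℤ) : ℝ) else 0 := rfl
  rw [e]
  split_ifs with h
  · refine ⟨?_, fun _ => h⟩
    have h1 : |moebius m| ≤ 1 := abs_moebius_le_one
    exact_mod_cast h1
  · exact ⟨by norm_num, fun h => absurd rfl h⟩

theorem BLK_sml (X h m : ℕ) (hh : h ≤ 1) :
    |sml X h m| ≤ 1 + Real.log X ∧ (sml X h m ≠ 0 → m ≤ X) := by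
  have e : sml X h m = if 1 ≤ m ∧ m ≤ X then Real.log m ^ h else 0 := rfl
  have hX : 0 ≤ Real.log (X : ℝ) := Real.log_natCast_nonneg X
  rw [e]
  split_ifs with h1
  · refine ⟨?_, fun _ => h1.2⟩
    have h2 : 0 ≤ Real.log (m : ℝ) := Real.log_natCast_nonneg m
    have h3 : Real.log (m : ℝ) ≤ Real.log (X : ℝ) :=
      Real.log_le_log (by exact_mod_cast h1.1) (by exact_mod_cast h1.2)
    interval_cases h
    · rw [pow_zero, abs_one]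
      linarith
    · rw [pow_one, abs_of_nonneg h2]
      linarith
  · refine ⟨?_, fun h => absurd rfl h⟩
    rw [abs_zero]
    linarith

theorem BLK_abs {r : ℕ} (N z X : ℕ) (a b : Fin r → ℝ) (i : ℕ) (k : Fin (r + 2 * i)) (m : ℕ) :
    |uu N z X a b i k m| ≤ 1 + Real.log X := by
  have hX : 0 ≤ Real.log (X : ℝ) := Real.log_natCast_nonneg X
  rcases BLK_kind N z X a b i k with ⟨h, e⟩ | ⟨-, e | e | e⟩
  · rw [e]
    have := (BLK_cel ((N : ℝ) ^ a ⟨k, h⟩) ((N : ℝ) ^ b ⟨k, h⟩) m).1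
    linarith
  · rw [e]
    have := (BLK_muz z m).1
    linarith
  · rw [e]
    exact (BLK_sml X 0 m (by norm_num)).1
  · rw [e]
    exact (BLK_sml X 1 m le_rfl).1

theorem BLK_logX {N : ℕ} (hN : 1 ≤ N) : Real.log (YN N) ≤ 101 / 100 * Real.log N := by
  have hN1 : (1 : ℝ) ≤ (N : ℝ) := by exact_mod_cast hN
  have h1 : ((YN N : ℕ) : ℝ) ≤ (N : ℝ) ^ (101 / 100 : ℝ) := Nat.floor_le (by positivity)
  have h2 : 0 < YN N := by
    unfold YN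
    rw [Nat.floor_pos]
    exact Real.one_le_rpow hN1 (by norm_num)
  calc Real.log (YN N) ≤ Real.log ((N : ℝ) ^ (101 / 100 : ℝ)) :=
        Real.log_le_log (by exact_mod_cast h2) h1
    _ = 101 / 100 * Real.log N := Real.log_rpow (by linarith) _

theorem BLK_coef {r : ℕ} {N : ℕ} (hN : 1 ≤ N) (hL : 3 ≤ Real.log N) (a b : Fin r → ℝ) (i : ℕ)
    (k : Fin (r + 2 * i)) {q : ℕ} (χ : DirichletCharacter ℂ q) (m : ℕ) :
    ‖((uu N (zN N) (YN N) a b i k m : ℝ) : ℂ) * χ m‖ ≤ Real.log N ^ 2 := by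
  have h1 := BLK_abs N (zN N) (YN N) a b i k m
  have h2 := BLK_logX hN
  have h3 : ‖χ (m : ZMod q)‖ ≤ 1 := DirichletCharacter.norm_le_one χ _
  rw [norm_mul, Complex.norm_real, Real.norm_eq_abs]
  calc |uu N (zN N) (YN N) a b i k m| * ‖χ (m : ZMod q)‖ ≤ |uu N (zN N) (YN N) a b i k m| * 1 :=
        mul_le_mul_of_nonneg_left h3 (abs_nonneg _)
    _ = |uu N (zN N) (YN N) a b i k m| := mul_one _
    _ ≤ 1 + 101 / 100 * Real.log N := by linarith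
    _ ≤ Real.log N ^ 2 := by nlinarith

/-! ### At least five long blocks -/

theorem BLK_long (h1 : Pool.Agent.SK.BL5_stmt) (h3 : Pool.Agent.SK.SPK_stmt) (r : ℕ) (η : ℝ) (hη : 0 < η) (A Bq : ℕ) :
    ∃ B₁ N₀ : ℕ, ∀ B : ℕ, B₁ ≤ B → ∀ N : ℕ, N₀ ≤ N → ∀ (a b : Fin r → ℝ) (q : ℕ),
      1 ≤ q → (q : ℝ) ≤ Real.log N ^ Bq → ∀ χ : DirichletCharacter ℂ q, ∀ i ∈ Icc 1 7,
      ∀ e : Fin (r + 2 * i) → ℕ,
      N ^ 3 ≤ 2 ^ (r + 2 * i + 4) * ∏ k, 2 ^ e k → ∏ k, 2 ^ e k ≤ 8 * N ^ 3 →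
      (∀ k, ((2 ^ e k : ℕ) : ℝ) ≤ (N : ℝ) ^ (8 / 5 : ℝ)) →
      5 ≤ #(univ.filter fun k : Fin (r + 2 * i) => (N : ℝ) ^ η ≤ ((2 ^ e k : ℕ) : ℝ)) →
      ∫ t in Tset (1 / 200) B N, (∏ k, ‖DPb (2 ^ e k)
          (fun m => ((uu N (zN N) (YN N) a b i k m : ℝ) : ℂ) * χ m) t‖) * min 1 (8 * (N : ℝ) ^ 2 / t ^ 2) ≤
        (N : ℝ) ^ 3 / Real.log N ^ A := by
  have H1 : ∀ i : ℕ, ∃ A₁ N₀ : ℕ, ∀ N : ℕ, N₀ ≤ N → ∀ (B₁ : ℕ) (M : Fin (r + 2 * i) → ℕ)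
      (a : Fin (r + 2 * i) → ℕ → ℂ), (∀ i, 1 ≤ M i) → (∀ i m, m < 2 * M i → ‖a i m‖ ≤ Real.log N ^ 2) →
      N ^ 3 ≤ 2 ^ (r + 2 * i + 4) * ∏ i, M i → ∏ i, M i ≤ 8 * N ^ 3 →
      (∀ i, (M i : ℝ) ≤ (N : ℝ) ^ (8 / 5 : ℝ)) →
      5 ≤ #(univ.filter fun i : Fin (r + 2 * i) => (N : ℝ) ^ η ≤ M i) →
      (∀ i, (N : ℝ) ^ η ≤ M i → ∀ t ∈ Tset (1 / 200) B₁ N, ‖DPb (M i) (a i) t‖ ≤ M i / Real.log N ^ A₁) →
      ∫ t in Tset (1 / 200) B₁ N, (∏ i, ‖DPb (M i) (a i) t‖) * min 1 (8 * (N : ℝ) ^ 2 / t ^ 2) ≤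
        (N : ℝ) ^ 3 / Real.log N ^ A := fun i => h1 (r + 2 * i) 2 A η hη
  choose A₁ N₁ H1 using H1
  have H3 := fun i : ℕ => h3 (A₁ i) Bq η hη
  choose B₁ N₂ H3 using H3
  obtain ⟨N₃, hN₃⟩ := BLK_evl 3
  refine ⟨(Icc 1 7).sup B₁, max (max ((Icc 1 7).sup N₁) ((Icc 1 7).sup N₂)) (max N₃ 1), ?_⟩
  intro B hB N hN a b q hq hqL χ i hi e he1 he2 he3 he4
  have hNa : N₁ i ≤ N := ((Finset.le_sup (f := N₁) hi).trans (le_max_left _ _)).trans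
    ((le_max_left _ _).trans hN)
  have hNb : N₂ i ≤ N := ((Finset.le_sup (f := N₂) hi).trans (le_max_right _ _)).trans
    ((le_max_left _ _).trans hN)
  have hNc : N₃ ≤ N := (le_max_left _ _).trans ((le_max_right _ _).trans hN)
  have hN1 : 1 ≤ N := (le_max_right _ _).trans ((le_max_right _ _).trans hN)
  have hBi : B₁ i ≤ B := (Finset.le_sup (f := B₁) hi).trans hB
  have hL := hN₃ N hNc
  have hN1r : (1 : ℝ) ≤ (N : ℝ) := by exact_mod_cast hN1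
  refine H1 i N hNa B (fun k => 2 ^ e k) _ (fun k => Nat.one_le_two_pow)
    (fun k m _ => BLK_coef hN1 hL a b i k χ m) he1 he2 he3 he4 ?_
  intro k hk t ht
  refine H3 i N hNb q hq hqL χ _ (BLK_spk N (zN N) (YN N) a b i k) (2 ^ e k) hk ?_ t ?_ ?_
  · have h5 : (2 ^ e k : ℕ) ≤ ∏ k, 2 ^ e k :=
      Finset.single_le_prod' (f := fun k => 2 ^ e k) (fun k _ => Nat.one_le_two_pow) (Finset.mem_univ k)
    have h6 : 8 * N ^ 3 ≤ 64 * N ^ 3 := Nat.mul_le_mul_right _ (by norm_num)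
    exact (h5.trans he2).trans h6
  · exact (pow_le_pow_right₀ (by linarith) hBi).trans ht.1
  · refine ht.2.trans ?_
    have h7 : (N : ℝ) ^ (2 : ℝ) = (N : ℝ) ^ 2 := by norm_num
    rw [← h7]
    exact Real.rpow_le_rpow_of_exponent_le hN1r (by norm_num)

/-! ### Vanishing -/

theorem BLK_van {R : ℕ} (M : Fin R → ℕ) (a : Fin R → ℕ → ℂ) (k : Fin R)
    (h : ∀ m ∈ Ico (M k) (2 * M k), a k m = 0) (S : Set ℝ) (g : ℝ → ℝ) :
    ∫ t in S, (∏ i, ‖DPb (M i) (a i) t‖) * g t = 0 := by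
  have h0 : ∀ t, (∏ i, ‖DPb (M i) (a i) t‖) * g t = 0 := by
    intro t
    have h1 : DPb (M k) (a k) t = 0 := by
      unfold DPb
      apply Finset.sum_eq_zero
      intro m hm
      rw [h m hm, zero_mul]
    have h2 : ∏ i, ‖DPb (M i) (a i) t‖ = 0 :=
      Finset.prod_eq_zero (Finset.mem_univ k) (by rw [h1, norm_zero])
    rw [h2, zero_mul]
  simp only [h0, integral_zero]

/-! ### The integral without the weight -/

theorem BLK_cont (M : ℕ) (a : ℕ → ℂ) : Continuous (DPb M a) := by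
  unfold DPb nit
  fun_prop

theorem BLK_cpt (ε : ℝ) (B N : ℕ) : IsCompact (Tset ε B N) := by
  have h : Tset ε B N = Set.Icc (-(N : ℝ) ^ (1 + 2 * ε)) ((N : ℝ) ^ (1 + 2 * ε)) ∩
      {t : ℝ | Real.log N ^ B ≤ |t|} := by
    ext t
    unfold Tset
    simp only [Set.mem_ofPred_eq, Set.mem_inter_iff, Set.mem_Icc, abs_le]
    tauto
  rw [h]
  exact isCompact_Icc.inter_right (isClosed_le continuous_const continuous_abs)

theorem BLK_drop {R : ℕ} (M : Fin R → ℕ) (a : Fin R → ℕ → ℂ) (B N : ℕ) :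
    ∫ t in Tset (1 / 200) B N, (∏ i, ‖DPb (M i) (a i) t‖) * min 1 (8 * (N : ℝ) ^ 2 / t ^ 2) ≤
      ∫ t in Tset (1 / 200) B N, ∏ i, ‖DPb (M i) (a i) t‖ := by
  have hc : Continuous (fun t => ∏ i, ‖DPb (M i) (a i) t‖) :=
    continuous_finsetProd _ fun i _ => (BLK_cont (M i) (a i)).norm
  have h0 : ∀ t, 0 ≤ ∏ i, ‖DPb (M i) (a i) t‖ := fun t => Finset.prod_nonneg fun i _ => norm_nonneg _
  apply integral_mono_of_nonneg
  · exact Filter.Eventually.of_forall fun t => mul_nonneg (h0 t) (le_min zero_le_one (by positivity))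
  · exact hc.continuousOn.integrableOn_compact (BLK_cpt _ _ _)
  · exact Filter.Eventually.of_forall fun t => mul_le_of_le_one_right (h0 t) (min_le_left _ _)

/-! ### Sizes -/

theorem BLK_nc {r : ℕ} {N : ℕ} (a b : Fin r → ℝ) (i : ℕ) (k : Fin (r + 2 * i)) (hk : r ≤ (k : ℕ))
    {M m : ℕ} (hm : M ≤ m) (hne : uu N (zN N) (YN N) a b i k m ≠ 0) :
    (M : ℝ) ≤ 4 * (N : ℝ) ^ (3 / 7 : ℝ) ∨ ((M : ℝ) ≤ (N : ℝ) ^ (101 / 100 : ℝ) ∧
      ∃ h : ℕ, h ≤ 1 ∧ uu N (zN N) (YN N) a b i k = sml (YN N) h) := by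
  have hY : ((YN N : ℕ) : ℝ) ≤ (N : ℝ) ^ (101 / 100 : ℝ) := Nat.floor_le (by positivity)
  have hz : ((zN N : ℕ) : ℝ) ≤ 4 * (N : ℝ) ^ (3 / 7 : ℝ) := Nat.floor_le (by positivity)
  have hmr : (M : ℝ) ≤ (m : ℝ) := by exact_mod_cast hm
  rcases BLK_kind N (zN N) (YN N) a b i k with ⟨h, e⟩ | ⟨-, e | e | e⟩
  · omega
  · rw [e] at hne
    have h1 : (m : ℝ) ≤ (zN N : ℝ) := by exact_mod_cast (BLK_muz _ _).2 hne
    exact Or.inl (hmr.trans (h1.trans hz))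
  · rw [e] at hne
    have h1 : (m : ℝ) ≤ (YN N : ℝ) := by exact_mod_cast (BLK_sml _ 0 _ (by norm_num)).2 hne
    exact Or.inr ⟨hmr.trans (h1.trans hY), 0, by norm_num, e⟩
  · rw [e] at hne
    have h1 : (m : ℝ) ≤ (YN N : ℝ) := by exact_mod_cast (BLK_sml _ 1 _ le_rfl).2 hne
    exact Or.inr ⟨hmr.trans (h1.trans hY), 1, le_rfl, e⟩

theorem BLK_zY {N : ℕ} (hN : 16 ≤ N) : 4 * (N : ℝ) ^ (3 / 7 : ℝ) ≤ (N : ℝ) ^ (101 / 100 : ℝ) := by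
  have hNr : (16 : ℝ) ≤ (N : ℝ) := by exact_mod_cast hN
  have hN1r : (1 : ℝ) ≤ (N : ℝ) := by linarith
  have hN0r : (0 : ℝ) < (N : ℝ) := by linarith
  have h5 : (4 : ℝ) ≤ (N : ℝ) ^ (1 / 2 : ℝ) := by
    rw [← Real.sqrt_eq_rpow]
    apply Real.le_sqrt_of_sq_le
    norm_num
    linarith
  calc 4 * (N : ℝ) ^ (3 / 7 : ℝ) ≤ (N : ℝ) ^ (1 / 2 : ℝ) * (N : ℝ) ^ (3 / 7 : ℝ) :=
        mul_le_mul_of_nonneg_right h5 (by positivity)
    _ = (N : ℝ) ^ (1 / 2 + 3 / 7 : ℝ) := (Real.rpow_add hN0r _ _).symm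
    _ ≤ (N : ℝ) ^ (101 / 100 : ℝ) := Real.rpow_le_rpow_of_exponent_le hN1r (by norm_num)


/-! ### Exactly three prime variables -/

theorem BLK_r3 (h1 : Pool.Agent.SK.BL5_stmt) (h2 : BL4_stmt) (h3 : Pool.Agent.SK.SPK_stmt)
    (h4 : Pool.Agent.SK.VDK_stmt) (a b : Fin 3 → ℝ) (hab' : ∀ i, 0 < a i ∧ b i ≤ 3 / 2) (hb3 : ∑ i, b i < 3)
    (hb' : ∀ i, b i ≤ 3 - ∑ k, b k + 3 / 50) (A Bq : ℕ) : ∃ B₁ N₀ : ℕ, ∀ N : ℕ, N₀ ≤ N → ∀ q : ℕ,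
      1 ≤ q → (q : ℝ) ≤ Real.log N ^ Bq → ∀ χ : DirichletCharacter ℂ q, ∀ i ∈ Icc 1 7,
      ∀ e : Fin (3 + 2 * i) → ℕ,
      N ^ 3 ≤ 2 ^ (3 + 2 * i + 4) * ∏ k, 2 ^ e k → ∏ k, 2 ^ e k ≤ 8 * N ^ 3 →
      ∫ t in Tset (1 / 200) B₁ N, (∏ k, ‖DPb (2 ^ e k)
          (fun m => ((uu N (zN N) (YN N) a b i k m : ℝ) : ℂ) * χ m) t‖) * min 1 (8 * (N : ℝ) ^ 2 / t ^ 2) ≤
        (N : ℝ) ^ 3 / Real.log N ^ A := by
  have hne : (univ : Finset (Fin 3)).Nonempty := ⟨⟨0, by omega⟩, mem_univ _⟩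
  obtain ⟨μ, hμ0, hμa⟩ : ∃ μ : ℝ, 0 < μ ∧ ∀ k, μ ≤ a k :=
    ⟨(univ : Finset (Fin 3)).inf' hne a, (Finset.lt_inf'_iff _).2 fun k _ => (hab' k).1,
      fun k => Finset.inf'_le _ (mem_univ k)⟩
  obtain ⟨κ, hκ⟩ : ∃ κ : ℝ, κ = 3 - ∑ k, b k := ⟨_, rfl⟩
  have hκ0 : 0 < κ := by linarith
  obtain ⟨η, hη, hη1, hημ, hηκ⟩ : ∃ η : ℝ, 0 < η ∧ η ≤ 1 / 1000 ∧ η ≤ μ / 2 ∧ η ≤ κ / 16 :=
    ⟨min (1 / 1000) (min (μ / 2) (κ / 16)), lt_min (by norm_num) (lt_min (by linarith) (by linarith)),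
      min_le_left _ _, (min_le_right _ _).trans (min_le_left _ _), (min_le_right _ _).trans (min_le_right _ _)⟩
  obtain ⟨B₁, N₁, HL⟩ := BLK_long h1 h3 3 η hη A Bq
  obtain ⟨B₂, H2⟩ := h2 A (Bq + 3)
  obtain ⟨N₂, H2⟩ := H2 (max B₁ B₂) (le_max_right _ _)
  obtain ⟨C, hC, H4⟩ := h4
  obtain ⟨N₃, hN₃⟩ := BLK_ev η 2 hη
  obtain ⟨N₄, hN₄⟩ := BLK_ev (κ / 8) (2 ^ (3 + 18) + 1) (by positivity)
  obtain ⟨N₅, hN₅⟩ := BLK_ev (7 / 1000) (2 ^ 21) (by norm_num)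
  obtain ⟨N₆, hN₆⟩ := BLK_evl (5 * C + 20)
  refine ⟨max B₁ B₂, max (max (max N₁ N₂) (max N₃ N₄)) (max (max N₅ N₆) (2 ^ 29 + 1)), ?_⟩
  intro N hN q hq hqL χ i hi e he1 he2
  have hNa : N₁ ≤ N := le_trans ((le_max_left _ _).trans ((le_max_left _ _).trans (le_max_left _ _))) hN
  have hNb : N₂ ≤ N := le_trans ((le_max_right _ _).trans ((le_max_left _ _).trans (le_max_left _ _))) hN
  have hNc : N₃ ≤ N := le_trans ((le_max_left _ _).trans ((le_max_right _ _).trans (le_max_left _ _))) hN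
  have hNd : N₄ ≤ N := le_trans ((le_max_right _ _).trans ((le_max_right _ _).trans (le_max_left _ _))) hN
  have hNe : N₅ ≤ N := le_trans ((le_max_left _ _).trans ((le_max_left _ _).trans (le_max_right _ _))) hN
  have hNf : N₆ ≤ N := le_trans ((le_max_right _ _).trans ((le_max_left _ _).trans (le_max_right _ _))) hN
  have hNg : 2 ^ 29 + 1 ≤ N := le_trans ((le_max_right _ _).trans (le_max_right _ _)) hN
  have hL := hN₆ N hNf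
  have h2η := hN₃ N hNc
  have hκ8 := hN₄ N hNd
  have h7 := hN₅ N hNe
  have hN1 : 1 ≤ N := by omega
  have hN16 : 16 ≤ N := by omega
  have hN1r : (1 : ℝ) ≤ (N : ℝ) := by exact_mod_cast hN1
  have hN0r : (0 : ℝ) < (N : ℝ) := by linarith
  have hi' := Finset.mem_Icc.1 hi
  by_cases hv : ∃ k, ∀ m ∈ Ico (2 ^ e k) (2 * 2 ^ e k),
      ((uu N (zN N) (YN N) a b i k m : ℝ) : ℂ) * χ m = 0
  · obtain ⟨k, hk⟩ := hv
    refine le_trans (le_of_eq (BLK_van (fun k => 2 ^ e k)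
      (fun k m => ((uu N (zN N) (YN N) a b i k m : ℝ) : ℂ) * χ m) k hk _
      (fun t => min 1 (8 * (N : ℝ) ^ 2 / t ^ 2)))) ?_
    have : 0 < Real.log N := by linarith
    positivity
  push Not at hv
  have hv' : ∀ k, ∃ m ∈ Ico (2 ^ e k) (2 * 2 ^ e k), uu N (zN N) (YN N) a b i k m ≠ 0 := by
    intro k
    obtain ⟨m, hm, hne⟩ := hv k
    refine ⟨m, hm, fun h0 => hne ?_⟩
    rw [h0]
    simp
  have hp : ∀ (k : Fin (3 + 2 * i)) (h : (k : ℕ) < 3), (N : ℝ) ^ a ⟨k, h⟩ ≤ 2 * ((2 ^ e k : ℕ) : ℝ) ∧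
      ((2 ^ e k : ℕ) : ℝ) ≤ (N : ℝ) ^ b ⟨k, h⟩ := by
    intro k h
    obtain ⟨m, hm, hne⟩ := hv' k
    have hm' := Finset.mem_Ico.1 hm
    rcases BLK_kind N (zN N) (YN N) a b i k with ⟨h', eq⟩ | ⟨h', -⟩
    · rw [eq] at hne
      have h5 := (BLK_cel _ _ _).2 hne
      have h6 : ((2 ^ e k : ℕ) : ℝ) ≤ (m : ℝ) := by exact_mod_cast hm'.1
      have h7 : (m : ℝ) ≤ 2 * ((2 ^ e k : ℕ) : ℝ) := by exact_mod_cast hm'.2.le
      exact ⟨h5.1.trans h7, h6.trans h5.2.le⟩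
    · omega
  have hn : ∀ k : Fin (3 + 2 * i), 3 ≤ (k : ℕ) → ((2 ^ e k : ℕ) : ℝ) ≤ (N : ℝ) ^ (101 / 100 : ℝ) := by
    intro k hk
    obtain ⟨m, hm, hne⟩ := hv' k
    rcases BLK_nc a b i k hk (Finset.mem_Ico.1 hm).1 hne with h | h
    · exact h.trans (BLK_zY hN16)
    · exact h.1
  have hM : ∀ k, ((2 ^ e k : ℕ) : ℝ) ≤ (N : ℝ) ^ (8 / 5 : ℝ) := by
    intro k
    by_cases hk : (k : ℕ) < 3
    · refine (hp k hk).2.trans (Real.rpow_le_rpow_of_exponent_le hN1r ?_)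
      have := (hab' ⟨k, hk⟩).2
      linarith
    · exact (hn k (by omega)).trans (Real.rpow_le_rpow_of_exponent_le hN1r (by norm_num))
  have hlp : ∀ k : Fin (3 + 2 * i), (k : ℕ) < 3 → (N : ℝ) ^ η ≤ ((2 ^ e k : ℕ) : ℝ) := by
    intro k hk
    have h5 := (hp k hk).1
    have h6 : (N : ℝ) ^ η * (N : ℝ) ^ η ≤ (N : ℝ) ^ a ⟨k, hk⟩ := by
      rw [← Real.rpow_add hN0r]
      apply Real.rpow_le_rpow_of_exponent_le hN1r
      have := hμa ⟨k, hk⟩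
      linarith
    have h7 : 2 * (N : ℝ) ^ η ≤ (N : ℝ) ^ η * (N : ℝ) ^ η :=
      mul_le_mul_of_nonneg_right h2η (by positivity)
    linarith
  have he1r : (N : ℝ) ^ 3 ≤ 2 ^ (3 + 2 * i + 4) * ((∏ j : Fin 3, ((2 ^ e (Fin.castAdd (2 * i) j) : ℕ) : ℝ)) *
      ∏ j : Fin (2 * i), ((2 ^ e (Fin.natAdd 3 j) : ℕ) : ℝ)) := by
    have h5 : (N : ℝ) ^ 3 ≤ 2 ^ (3 + 2 * i + 4) * ∏ k, ((2 ^ e k : ℕ) : ℝ) := by exact_mod_cast he1
    rwa [Fin.prod_univ_add] at h5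
  have h8 : (2 : ℝ) ^ (3 + 2 * i + 4) ≤ 2 ^ 21 := pow_le_pow_right₀ (by norm_num) (by omega)
  have hpb : ∏ j : Fin 3, ((2 ^ e (Fin.castAdd (2 * i) j) : ℕ) : ℝ) ≤ (N : ℝ) ^ (∑ k, b k) := by
    rw [Real.rpow_sum_of_pos hN0r]
    apply Finset.prod_le_prod
    · intro j _
      positivity
    · intro j _
      exact (hp (Fin.castAdd (2 * i) j) j.2).2
  obtain ⟨j₁, hj₁⟩ : ∃ j : Fin (2 * i), (N : ℝ) ^ η ≤ ((2 ^ e (Fin.natAdd 3 j) : ℕ) : ℝ) := by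
    by_contra hcon
    push Not at hcon
    have h7 : ∏ j : Fin (2 * i), ((2 ^ e (Fin.natAdd 3 j) : ℕ) : ℝ) ≤ (N : ℝ) ^ (7 * κ / 8) := by
      calc ∏ j : Fin (2 * i), ((2 ^ e (Fin.natAdd 3 j) : ℕ) : ℝ) ≤ ∏ _j : Fin (2 * i), (N : ℝ) ^ η :=
            Finset.prod_le_prod (fun j _ => by positivity) (fun j _ => (hcon j).le)
        _ = ((N : ℝ) ^ η) ^ (2 * i) := by rw [Finset.prod_const, Finset.card_univ, Fintype.card_fin]
        _ ≤ ((N : ℝ) ^ η) ^ 14 := pow_le_pow_right₀ (by linarith) (by omega)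
        _ = (N : ℝ) ^ (η * 14) := by
            rw [← Real.rpow_mul_natCast hN0r.le]
            norm_num
        _ ≤ (N : ℝ) ^ (7 * κ / 8) := Real.rpow_le_rpow_of_exponent_le hN1r (by linarith)
    have h9 : (N : ℝ) ^ 3 = (N : ℝ) ^ (∑ k, b k) * (N : ℝ) ^ (7 * κ / 8) * (N : ℝ) ^ (κ / 8) := by
      rw [← Real.rpow_add hN0r, ← Real.rpow_add hN0r]
      have : ∑ k, b k + 7 * κ / 8 + κ / 8 = (3 : ℝ) := by rw [hκ]; ring
      rw [this]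
      norm_num
    have h10 : (N : ℝ) ^ 3 ≤ 2 ^ (3 + 18) * ((N : ℝ) ^ (∑ k, b k) * (N : ℝ) ^ (7 * κ / 8)) := by
      refine he1r.trans ?_
      apply mul_le_mul (h8.trans (by norm_num)) _ (by positivity) (by positivity)
      exact mul_le_mul hpb h7 (Finset.prod_nonneg fun j _ => by positivity) (by positivity)
    have h11 : 0 < (N : ℝ) ^ (∑ k, b k) * (N : ℝ) ^ (7 * κ / 8) := by positivity
    rw [h9] at h10
    nlinarith
  by_cases hc : 5 ≤ #(univ.filter fun k : Fin (3 + 2 * i) => (N : ℝ) ^ η ≤ ((2 ^ e k : ℕ) : ℝ))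
  · exact HL _ (le_max_left _ _) N hNa a b q hq hqL χ i hi e he1 he2 hM hc
  have hc4 : #(univ.filter fun k : Fin (3 + 2 * i) => (N : ℝ) ^ η ≤ ((2 ^ e k : ℕ) : ℝ)) ≤ 4 := by omega
  have hshort : ∀ j : Fin (2 * i), j ≠ j₁ → ((2 ^ e (Fin.natAdd 3 j) : ℕ) : ℝ) < (N : ℝ) ^ η := by
    intro j hj
    by_contra hcon
    push Not at hcon
    have h5 : insert (Fin.natAdd 3 j) (insert (Fin.natAdd 3 j₁) (univ.map (Fin.castAddEmb (2 * i)))) ⊆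
        univ.filter fun k : Fin (3 + 2 * i) => (N : ℝ) ^ η ≤ ((2 ^ e k : ℕ) : ℝ) := by
      intro k hk
      rw [Finset.mem_filter]
      refine ⟨Finset.mem_univ _, ?_⟩
      rcases Finset.mem_insert.1 hk with rfl | hk
      · exact hcon
      · rcases Finset.mem_insert.1 hk with rfl | hk
        · exact hj₁
        · obtain ⟨j, -, rfl⟩ := Finset.mem_map.1 hk
          exact hlp _ j.2
    have h6 : ∀ j' : Fin (2 * i), Fin.natAdd 3 j' ∉ univ.map (Fin.castAddEmb (n := 3) (2 * i)) := by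
      intro j' h
      obtain ⟨j, -, hj⟩ := Finset.mem_map.1 h
      have h7 := congrArg Fin.val hj
      have h8 := j.2
      simp at h7
      omega
    have h6' : Fin.natAdd 3 j ∉ insert (Fin.natAdd 3 j₁) (univ.map (Fin.castAddEmb (n := 3) (2 * i))) := by
      intro h
      rcases Finset.mem_insert.1 h with h | h
      · apply hj
        have h7 := congrArg Fin.val h
        simp only [Fin.val_natAdd] at h7
        exact Fin.ext (by omega)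
      · exact h6 j h
    have h7 := Finset.card_le_card h5
    rw [Finset.card_insert_of_notMem h6', Finset.card_insert_of_notMem (h6 j₁), Finset.card_map,
      Finset.card_univ, Fintype.card_fin] at h7
    omega
  obtain ⟨k₀, hk₀⟩ : ∃ k₀ : Fin (3 + 2 * i), k₀ = Fin.natAdd 3 j₁ := ⟨_, rfl⟩
  have hk₀3 : 3 ≤ (k₀ : ℕ) := by rw [hk₀]; simp
  have hMk₀ : (1 : ℝ) ≤ ((2 ^ e k₀ : ℕ) : ℝ) := by exact_mod_cast Nat.one_le_two_pow
  have hoth : ∏ j : Fin (2 * i), ((2 ^ e (Fin.natAdd 3 j) : ℕ) : ℝ) ≤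
      ((2 ^ e k₀ : ℕ) : ℝ) * (N : ℝ) ^ (13 / 1000 : ℝ) := by
    rw [← Finset.mul_prod_erase univ (fun j : Fin (2 * i) => ((2 ^ e (Fin.natAdd 3 j) : ℕ) : ℝ)) (mem_univ j₁), hk₀]
    apply mul_le_mul_of_nonneg_left _ (by positivity)
    calc ∏ j ∈ univ.erase j₁, ((2 ^ e (Fin.natAdd 3 j) : ℕ) : ℝ) ≤ ∏ _j ∈ univ.erase j₁, (N : ℝ) ^ η :=
          Finset.prod_le_prod (fun j _ => by positivity) (fun j hj => (hshort j (Finset.ne_of_mem_erase hj)).le)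
      _ = ((N : ℝ) ^ η) ^ (2 * i - 1) := by
          rw [Finset.prod_const, Finset.card_erase_of_mem (mem_univ _), Finset.card_univ, Fintype.card_fin]
      _ ≤ ((N : ℝ) ^ η) ^ 13 := pow_le_pow_right₀ (by linarith) (by omega)
      _ = (N : ℝ) ^ (η * 13) := by
          rw [← Real.rpow_mul_natCast hN0r.le]
          norm_num
      _ ≤ (N : ℝ) ^ (13 / 1000 : ℝ) := Real.rpow_le_rpow_of_exponent_le hN1r (by linarith)
  have hkap : (N : ℝ) ^ (3 - ∑ k, b k) ≤ 2 ^ 21 * (((2 ^ e k₀ : ℕ) : ℝ) * (N : ℝ) ^ (13 / 1000 : ℝ)) := by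
    have h9 : (N : ℝ) ^ 3 = (N : ℝ) ^ (∑ k, b k) * (N : ℝ) ^ (3 - ∑ k, b k) := by
      rw [← Real.rpow_add hN0r]
      have : ∑ k, b k + (3 - ∑ k, b k) = (3 : ℝ) := by ring
      rw [this]
      norm_num
    have h10 : (N : ℝ) ^ 3 ≤ 2 ^ 21 * ((N : ℝ) ^ (∑ k, b k) *
        (((2 ^ e k₀ : ℕ) : ℝ) * (N : ℝ) ^ (13 / 1000 : ℝ))) := by
      refine he1r.trans ?_
      apply mul_le_mul h8 _ (by positivity) (by positivity)
      exact mul_le_mul hpb hoth (Finset.prod_nonneg fun j _ => by positivity) (by positivity)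
    rw [h9] at h10
    have h11 : 0 < (N : ℝ) ^ (∑ k, b k) := by positivity
    refine le_of_mul_le_mul_left ?_ h11
    calc (N : ℝ) ^ (∑ k, b k) * (N : ℝ) ^ (3 - ∑ k, b k) ≤ _ := h10
      _ = _ := by ring
  have hall : ∀ k, ((2 ^ e k : ℕ) : ℝ) ≤ (N : ℝ) ^ (2 / 25 : ℝ) * ((2 ^ e k₀ : ℕ) : ℝ) := by
    have hN2 : (1 : ℝ) ≤ (N : ℝ) ^ (2 / 25 : ℝ) := Real.one_le_rpow hN1r (by norm_num)
    intro k
    by_cases hk : (k : ℕ) < 3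
    · calc ((2 ^ e k : ℕ) : ℝ) ≤ (N : ℝ) ^ b ⟨k, hk⟩ := (hp k hk).2
        _ ≤ (N : ℝ) ^ (3 - ∑ k, b k + 3 / 50) := Real.rpow_le_rpow_of_exponent_le hN1r (hb' _)
        _ = (N : ℝ) ^ (3 - ∑ k, b k) * (N : ℝ) ^ (3 / 50 : ℝ) := Real.rpow_add hN0r _ _
        _ ≤ (2 ^ 21 * (((2 ^ e k₀ : ℕ) : ℝ) * (N : ℝ) ^ (13 / 1000 : ℝ))) * (N : ℝ) ^ (3 / 50 : ℝ) :=
            mul_le_mul_of_nonneg_right hkap (by positivity)
        _ ≤ ((N : ℝ) ^ (7 / 1000 : ℝ) * (((2 ^ e k₀ : ℕ) : ℝ) * (N : ℝ) ^ (13 / 1000 : ℝ))) * (N : ℝ) ^ (3 / 50 : ℝ) :=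
            mul_le_mul_of_nonneg_right (mul_le_mul_of_nonneg_right h7 (by positivity)) (by positivity)
        _ = ((N : ℝ) ^ (7 / 1000 : ℝ) * (N : ℝ) ^ (13 / 1000 : ℝ) * (N : ℝ) ^ (3 / 50 : ℝ)) *
              ((2 ^ e k₀ : ℕ) : ℝ) := by ring
        _ = (N : ℝ) ^ (2 / 25 : ℝ) * ((2 ^ e k₀ : ℕ) : ℝ) := by
            rw [← Real.rpow_add hN0r, ← Real.rpow_add hN0r]
            norm_num
    · obtain ⟨j, hj⟩ : ∃ j : Fin (2 * i), k = Fin.natAdd 3 j :=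
        ⟨⟨(k : ℕ) - 3, by have := k.2; omega⟩, Fin.ext (by simp; omega)⟩
      by_cases hjj : j = j₁
      · rw [hj, hjj, ← hk₀]
        exact le_mul_of_one_le_left (by positivity) hN2
      · rw [hj]
        calc ((2 ^ e (Fin.natAdd 3 j) : ℕ) : ℝ) ≤ (N : ℝ) ^ η := (hshort j hjj).le
          _ ≤ ((2 ^ e k₀ : ℕ) : ℝ) := by rw [hk₀]; exact hj₁
          _ ≤ (N : ℝ) ^ (2 / 25 : ℝ) * ((2 ^ e k₀ : ℕ) : ℝ) := le_mul_of_one_le_left (by positivity) hN2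
  have hk₀u : ∃ h : ℕ, h ≤ 1 ∧ uu N (zN N) (YN N) a b i k₀ = sml (YN N) h := by
    obtain ⟨m, hm, hne⟩ := hv' k₀
    rcases BLK_nc a b i k₀ hk₀3 (Finset.mem_Ico.1 hm).1 hne with h | h
    · exfalso
      have h12 : ∏ j : Fin 3, ((2 ^ e (Fin.castAdd (2 * i) j) : ℕ) : ℝ) ≤
          ((N : ℝ) ^ (2 / 25 : ℝ) * ((2 ^ e k₀ : ℕ) : ℝ)) ^ 3 := by
        calc ∏ j : Fin 3, ((2 ^ e (Fin.castAdd (2 * i) j) : ℕ) : ℝ) ≤
              ∏ _j : Fin 3, (N : ℝ) ^ (2 / 25 : ℝ) * ((2 ^ e k₀ : ℕ) : ℝ) :=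
              Finset.prod_le_prod (fun j _ => by positivity) (fun j _ => hall _)
          _ = _ := by rw [Finset.prod_const, Finset.card_univ, Fintype.card_fin]
      have h13 : (N : ℝ) ^ 3 ≤ 2 ^ 21 * (((N : ℝ) ^ (2 / 25 : ℝ) * ((2 ^ e k₀ : ℕ) : ℝ)) ^ 3 *
          (((2 ^ e k₀ : ℕ) : ℝ) * (N : ℝ) ^ (13 / 1000 : ℝ))) := by
        refine he1r.trans ?_
        apply mul_le_mul h8 _ (by positivity) (by positivity)
        exact mul_le_mul h12 hoth (Finset.prod_nonneg fun j _ => by positivity) (by positivity)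
      have h14 : ((2 ^ e k₀ : ℕ) : ℝ) ^ 4 ≤ (4 * (N : ℝ) ^ (3 / 7 : ℝ)) ^ 4 :=
        pow_le_pow_left₀ (by positivity) h 4
      have h15 : ((N : ℝ) ^ (3 / 7 : ℝ)) ^ 4 = (N : ℝ) ^ (12 / 7 : ℝ) := by
        rw [← Real.rpow_mul_natCast hN0r.le]
        norm_num
      have h16 : ((N : ℝ) ^ (2 / 25 : ℝ)) ^ 3 = (N : ℝ) ^ (6 / 25 : ℝ) := by
        rw [← Real.rpow_mul_natCast hN0r.le]
        norm_num
      have h17 : (N : ℝ) ^ (6 / 25 : ℝ) * (N : ℝ) ^ (12 / 7 : ℝ) * (N : ℝ) ^ (13 / 1000 : ℝ) ≤ (N : ℝ) ^ 2 := by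
        rw [← Real.rpow_add hN0r, ← Real.rpow_add hN0r]
        have : (N : ℝ) ^ (2 : ℝ) = (N : ℝ) ^ 2 := by norm_num
        rw [← this]
        exact Real.rpow_le_rpow_of_exponent_le hN1r (by norm_num)
      have h18 : (N : ℝ) ^ 3 ≤ 2 ^ 29 * (N : ℝ) ^ 2 := by
        calc (N : ℝ) ^ 3 ≤ 2 ^ 21 * (((N : ℝ) ^ (2 / 25 : ℝ) * ((2 ^ e k₀ : ℕ) : ℝ)) ^ 3 *
              (((2 ^ e k₀ : ℕ) : ℝ) * (N : ℝ) ^ (13 / 1000 : ℝ))) := h13
          _ = 2 ^ 21 * (((N : ℝ) ^ (2 / 25 : ℝ)) ^ 3 * ((2 ^ e k₀ : ℕ) : ℝ) ^ 4 * (N : ℝ) ^ (13 / 1000 : ℝ)) := by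
              ring
          _ ≤ 2 ^ 21 * (((N : ℝ) ^ (2 / 25 : ℝ)) ^ 3 * (4 * (N : ℝ) ^ (3 / 7 : ℝ)) ^ 4 *
                (N : ℝ) ^ (13 / 1000 : ℝ)) :=
              mul_le_mul_of_nonneg_left (mul_le_mul_of_nonneg_right
                (mul_le_mul_of_nonneg_left h14 (by positivity)) (by positivity)) (by positivity)
          _ = 2 ^ 29 * ((N : ℝ) ^ (6 / 25 : ℝ) * (N : ℝ) ^ (12 / 7 : ℝ) * (N : ℝ) ^ (13 / 1000 : ℝ)) := by
              rw [mul_pow 4, h15, h16]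
              ring
          _ ≤ 2 ^ 29 * (N : ℝ) ^ 2 := mul_le_mul_of_nonneg_left h17 (by positivity)
      have h19 : (2 ^ 29 + 1 : ℝ) ≤ (N : ℝ) := by exact_mod_cast hNg
      have h20 : 0 < (N : ℝ) ^ 2 := by positivity
      nlinarith
    · exact h.2
  obtain ⟨h, hh, hu⟩ := hk₀u
  refine le_trans (BLK_drop (fun k => 2 ^ e k)
    (fun k m => ((uu N (zN N) (YN N) a b i k m : ℝ) : ℂ) * χ m) _ N) ?_
  have hL1 : 1 ≤ Real.log N := by linarith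
  have hcs : #(univ.filter fun k : Fin (3 + 2 * i) => (N : ℝ) ^ (1 / 1000 : ℝ) ≤ ((2 ^ e k : ℕ) : ℝ)) ≤ 4 := by
    refine (Finset.card_le_card ?_).trans hc4
    intro k hk
    rw [Finset.mem_filter] at hk ⊢
    exact ⟨hk.1, (Real.rpow_le_rpow_of_exponent_le hN1r hη1).trans hk.2⟩
  refine H2 N hNb (3 + 2 * i) (by omega) (fun k => 2 ^ e k) _ k₀ (fun k => Nat.one_le_two_pow)
    (fun k m _ => (BLK_coef hN1 (by linarith) a b i k χ m).trans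
      (pow_le_pow_right₀ hL1 (by omega))) he1 he2 (hn k₀ hk₀3) hall hcs ?_
  intro t ht
  have h5 := H4 q hq χ (YN N) h (2 ^ e k₀) t hh Nat.one_le_two_pow ht
  rw [← hu] at h5
  refine h5.trans (mul_le_mul_of_nonneg_right ?_ (by positivity))
  have h6 : (2 ^ e k₀ : ℕ) ≤ 8 * N ^ 3 :=
    (Finset.single_le_prod' (f := fun k => 2 ^ e k) (fun k _ => Nat.one_le_two_pow)
      (Finset.mem_univ k₀)).trans he2
  have h7 : 2 * ((2 ^ e k₀ : ℕ) : ℝ) ≤ 16 * (N : ℝ) ^ 3 := by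
    have : ((2 ^ e k₀ : ℕ) : ℝ) ≤ 8 * (N : ℝ) ^ 3 := by exact_mod_cast h6
    linarith
  have h8 : Real.log (2 * ((2 ^ e k₀ : ℕ) : ℝ)) ≤ 3 + 3 * Real.log N := by
    calc Real.log (2 * ((2 ^ e k₀ : ℕ) : ℝ)) ≤ Real.log (16 * (N : ℝ) ^ 3) :=
          Real.log_le_log (by positivity) h7
      _ = Real.log 16 + 3 * Real.log N := by
          rw [Real.log_mul (by norm_num) (by positivity), Real.log_pow]
          norm_num
      _ ≤ 3 + 3 * Real.log N := by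
          have h16 : Real.log 16 = 4 * Real.log 2 := by
            rw [show (16 : ℝ) = 2 ^ 4 by norm_num, Real.log_pow]
            norm_num
          have := Real.log_two_lt_d9
          rw [h16]
          linarith
  have hLB : 0 < Real.log N ^ Bq := pow_pos (by linarith) _
  have h9 : 0 ≤ 1 + Real.log (2 * ((2 ^ e k₀ : ℕ) : ℝ)) := by
    have : 0 ≤ Real.log (2 * ((2 ^ e k₀ : ℕ) : ℝ)) := Real.log_nonneg (by linarith)
    linarith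
  calc C * q * (1 + Real.log (2 * ((2 ^ e k₀ : ℕ) : ℝ))) ≤ C * Real.log N ^ Bq * (5 * Real.log N) := by
        apply mul_le_mul
        · exact mul_le_mul_of_nonneg_left hqL hC.le
        · linarith
        · exact h9
        · positivity
    _ = Real.log N ^ Bq * (Real.log N * (5 * C)) := by ring
    _ ≤ Real.log N ^ Bq * Real.log N ^ 3 := by
        apply mul_le_mul_of_nonneg_left _ hLB.le
        have h10 : 5 * C ≤ Real.log N ^ 2 := by nlinarith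
        calc Real.log N * (5 * C) ≤ Real.log N * Real.log N ^ 2 :=
              mul_le_mul_of_nonneg_left h10 (by linarith)
          _ = Real.log N ^ 3 := by ring
    _ = Real.log N ^ (Bq + 3) := by rw [pow_add]

/-- **BLK**: one block. -/
theorem BLK (h1 : Pool.Agent.SK.BLK_stmt) (h2 : Pool.Agent.SK.BL5_stmt) (h3 : BL4_stmt)
    (h4 : Pool.Agent.SK.SPK_stmt) (h5 : Pool.Agent.SK.VDK_stmt) : BLK_stmt := by
  intro r a b hab A Bq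
  obtain ⟨hab', ha1, hb3, hr⟩ := hab
  rcases hr with hr | ⟨hr, hb'⟩
  · exact h1 r a b (Or.inr ⟨hr, hab', ha1, hb3⟩) A Bq
  · subst hr
    exact BLK_r3 h2 h3 h4 h5 a b hab' hb3 hb' A Bq

end Pool.Agent.XE
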